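import Pool.Agent.Lib.UCW.Gdef

/-!
# MP_aa59b8_lc: the derivations of the ambiguous words
-/

set_option autoImplicit false

namespace Pool.Agent.Lib.UCV

open Pool.Agent.Lib.UCX (Grammar Item)
open Pool.Agent.Lib.UCW (Amb LDer)

/-- The pairs of an `n > N` such that `0^n` has at least two leftmost derivations, and a leftmost derivation of `0^n`. -/
def AmbDer (G : Grammar) (N : ℕ) : Set (ℕ × List (List (Item G))) :=
  {x | N < x.1 ∧ x.1 ∈ Amb G ∧ LDer G x.2 x.1}

end Pool.Agent.Lib.UCV
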