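import Pool.Agent.Lib.UCW.Dsum

/-!
# UCV: analytic series, sparse sets
-/

set_option autoImplicit false

open Filter Topology Finset

namespace Pool.Agent.Lib.UCV

open Pool.Agent.Lib.UCX
open Pool.Agent.Lib.UCW

theorem an_gen {Y : Type} (v : Y → ℕ) {σ : ℝ} (hσ : σ < 1) (h : Summable fun y => ((v y : ℝ) + 1) ^ (-σ)) :
    AnalyticAt ℂ (fun s : ℂ => ∑' y, ((v y + 1 : ℕ) : ℂ) ^ (-s)) 1 := by
  have hU : IsOpen {s : ℂ | σ < s.re} := isOpen_lt continuous_const Complex.continuous_re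
  have hD : DifferentiableOn ℂ (fun s : ℂ => ∑' y, ((v y + 1 : ℕ) : ℂ) ^ (-s)) {s : ℂ | σ < s.re} := by
    refine Complex.differentiableOn_tsum_of_summable_norm h ?_ hU ?_
    · intro n w _
      exact (differentiableAt_id.neg.const_cpow
        (Or.inl (Nat.cast_ne_zero.2 (Nat.succ_ne_zero (v n))))).differentiableWithinAt
    · intro n w hw
      rw [Complex.norm_natCast_cpow_of_pos (Nat.succ_pos _)]
      have h1 : (1 : ℝ) ≤ ((v n + 1 : ℕ) : ℝ) := by exact_mod_cast Nat.succ_le_succ (Nat.zero_le _)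
      have h2 : ((v n + 1 : ℕ) : ℝ) = (v n : ℝ) + 1 := by push_cast; ring
      rw [← h2]
      refine Real.rpow_le_rpow_of_exponent_le h1 ?_
      have hw' : σ < w.re := hw
      rw [Complex.neg_re]
      linarith
  refine hD.analyticAt (hU.mem_nhds ?_)
  show σ < (1 : ℂ).re
  rw [Complex.one_re]
  exact hσ

theorem sparse_mono {D : Set ℕ} {σ σ' : ℝ} (hσ : σ ≤ σ')
    (h : Summable fun n : D => (((n : ℕ) : ℝ) + 1) ^ (-σ)) :
    Summable fun n : D => (((n : ℕ) : ℝ) + 1) ^ (-σ') := by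
  refine Summable.of_nonneg_of_le (fun n => Real.rpow_nonneg (by positivity) _) (fun n => ?_) h
  exact Real.rpow_le_rpow_of_exponent_le (by linarith [(Nat.cast_nonneg (n : ℕ) : (0 : ℝ) ≤ ((n : ℕ) : ℝ))])
    (by linarith)

theorem sparse_union {D1 D2 : Set ℕ} (h1 : Sparse D1) (h2 : Sparse D2) : Sparse (D1 ∪ D2) := by
  obtain ⟨σ1, hσ1, h1⟩ := h1
  obtain ⟨σ2, hσ2, h2⟩ := h2
  refine ⟨max σ1 σ2, max_lt hσ1 hσ2, ?_⟩
  have e1 := sparse_mono (le_max_left σ1 σ2) h1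
  have e2 := sparse_mono (le_max_right σ1 σ2) h2
  have f1 : Summable (Set.indicator D1 fun n : ℕ => ((n : ℝ) + 1) ^ (-max σ1 σ2)) :=
    summable_subtype_iff_indicator.1 e1
  have f2 : Summable (Set.indicator D2 fun n : ℕ => ((n : ℝ) + 1) ^ (-max σ1 σ2)) :=
    summable_subtype_iff_indicator.1 e2
  have hpos : ∀ n : ℕ, 0 ≤ ((n : ℝ) + 1) ^ (-max σ1 σ2) := fun n => Real.rpow_nonneg (by positivity) _
  refine (summable_subtype_iff_indicator (f := fun n : ℕ => ((n : ℝ) + 1) ^ (-max σ1 σ2)) (s := D1 ∪ D2)).2 ?_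
  refine Summable.of_nonneg_of_le (fun n => Set.indicator_nonneg (fun n _ => hpos n) n) (fun n => ?_) (f1.add f2)
  by_cases ha : n ∈ D1
  · rw [Set.indicator_of_mem (show n ∈ D1 ∪ D2 from Or.inl ha)]
    have := Set.indicator_nonneg (s := D2) (fun n _ => hpos n) n
    rw [Set.indicator_of_mem ha]
    linarith
  · by_cases hb : n ∈ D2
    · rw [Set.indicator_of_mem (show n ∈ D1 ∪ D2 from Or.inr hb), Set.indicator_of_mem hb]
      have := Set.indicator_nonneg (s := D1) (fun n _ => hpos n) n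
      linarith
    · rw [Set.indicator_of_notMem (show n ∉ D1 ∪ D2 from fun h => h.elim ha hb)]
      exact add_nonneg (Set.indicator_nonneg (fun n _ => hpos n) n) (Set.indicator_nonneg (fun n _ => hpos n) n)

/-- no arithmetic progression is sparse -/
theorem ap_not {a κ : ℕ} {σ : ℝ} (hσ : σ < 1) (h : Summable fun j : ℕ => (((a + κ * j : ℕ) : ℝ) + 1) ^ (-σ)) :
    False := by
  have h1 : Summable fun j : ℕ => (1 : ℝ) / ((j + 1 : ℕ) : ℝ) := by
    refine Summable.of_nonneg_of_le (fun j => by positivity) (fun j => ?_) (h.mul_left (((a + κ + 1 : ℕ) : ℝ)))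
    have hb : (1 : ℝ) ≤ ((a + κ * j : ℕ) : ℝ) + 1 := by
      linarith [(Nat.cast_nonneg (a + κ * j) : (0 : ℝ) ≤ ((a + κ * j : ℕ) : ℝ))]
    have h2 : (((a + κ * j : ℕ) : ℝ) + 1) ^ (-(1 : ℝ)) ≤ (((a + κ * j : ℕ) : ℝ) + 1) ^ (-σ) :=
      Real.rpow_le_rpow_of_exponent_le hb (by linarith)
    have h3 : (1 : ℝ) / ((j + 1 : ℕ) : ℝ) ≤ ((a + κ + 1 : ℕ) : ℝ) * (((a + κ * j : ℕ) : ℝ) + 1) ^ (-(1 : ℝ)) := by
      rw [Real.rpow_neg_one, ← div_eq_mul_inv, div_le_div_iff₀ (by positivity) (by positivity), one_mul]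
      push_cast
      have ha : (0 : ℝ) ≤ a := Nat.cast_nonneg a
      have hκ : (0 : ℝ) ≤ κ := Nat.cast_nonneg κ
      have hj : (0 : ℝ) ≤ j := Nat.cast_nonneg j
      nlinarith [mul_nonneg ha hj, mul_nonneg hκ hj]
    exact h3.trans (mul_le_mul_of_nonneg_left h2 (Nat.cast_nonneg _))
  exact Real.not_summable_one_div_natCast ((summable_nat_add_iff (f := fun j : ℕ => (1 : ℝ) / (j : ℝ)) 1).1 h1)

end Pool.Agent.Lib.UCV
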