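import Pool.Agent.Lib.UCX.Det
import Pool.Agent.Lib.UCX.Pth

/-!
# UCV: tame systems (summability instead of injectivity)
-/

set_option autoImplicit false

open Filter Topology Finset

namespace Pool.Agent.Lib.UCV

open Pool.Agent.Lib.UCX

/-- tame systems: the values of the paths to a live state are summable to every exponent larger than one, no edge with
`b = 0` is used infinitely often, and the series of the states on cycles of slope one have at most a simple pole -/
structure Tame (S : Sys) : Prop where
  summ : ∀ q, Live S q → (X S q).Infinite → ∀ s : ℝ, 1 < s →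
    Summable fun l : X S q => ((val S (l : List S.E) + 1 : ℕ) : ℝ) ^ (-s)
  edge : ∀ e : S.E, Live S (S.tgt e) → (X S (S.src e)).Infinite → 1 ≤ S.b e
  cyc : ∀ q, Live S q → (X S q).Infinite → Cyc S q →
    ∃ H : ℂ → ℂ, AnalyticAt ℂ H 1 ∧ ∀ s : ℝ, 1 < s → ((s : ℂ) - 1) * Dir S q s = H s

theorem edge_facts' (S : Sys) (hT : Tame S) (e : S.E) (hq : Live S (S.tgt e))
    (hi : (X S (S.src e)).Infinite) :
    1 ≤ S.b e ∧ Live S (S.src e) ∧ (X S (S.tgt e)).Infinite := by
  have h1 : Live S (S.src e) := by
    obtain ⟨q', hq', w, hw⟩ := hq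
    exact ⟨q', hq', w ++ [e], path_append (Path.cons e (Path.nil _)) hw⟩
  have hmem : ∀ l ∈ X S (S.src e), (e :: l) ∈ X S (S.tgt e) := fun l hl => Path.cons e hl
  have h2 : (X S (S.tgt e)).Infinite := by
    have h3 : ((fun l => e :: l) '' X S (S.src e)).Infinite :=
      hi.image (fun a _ b _ hab => List.cons_injective hab)
    refine h3.mono ?_
    rintro _ ⟨l, hl, rfl⟩
    exact hmem l hl
  exact ⟨hT.edge e hq hi, h1, h2⟩

end Pool.Agent.Lib.UCV
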