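import Pool.Agent.Lib.UCX.ApB
import Pool.Agent.Lib.UCV.Tame

/-!
# UCV: a criterion for tame systems
-/

set_option autoImplicit false

open Filter Topology Finset

namespace Pool.Agent.Lib.UCV

open Pool.Agent.Lib.UCX

/-- the accepted paths -/
def Acc (S : Sys) : Set (List S.E) := {l | ∃ q ∈ S.fin, l ∈ X S q}

/-- powers of a path -/
def rep {α : Type} (w : List α) (j : ℕ) : List α := (List.replicate j w).flatten

private theorem rep_succ {α : Type} (w : List α) (j : ℕ) : rep w (j + 1) = w ++ rep w j := by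
  unfold rep
  rw [List.replicate_succ, List.flatten_cons]

private theorem rep_len {α : Type} (w : List α) (j : ℕ) : (rep w j).length = j * w.length := by
  unfold rep
  rw [List.length_flatten, List.map_replicate, List.sum_replicate, smul_eq_mul]

private theorem bm_one (S : Sys) : ∀ w : List S.E, (∀ e ∈ w, S.b e = 1) → bm S w = 1
  | [], _ => rfl
  | e :: w, h => by
    show S.b e * bm S w = 1
    rw [h e (List.mem_cons_self), bm_one S w fun x hx => h x (List.mem_cons_of_mem _ hx)]

private theorem rep_path (S : Sys) {q : S.Q} {w x : List S.E} (hw : Path S q w q) (hx : x ∈ X S q) (j : ℕ) :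
    rep w j ++ x ∈ X S q := by
  induction j with
  | zero => exact hx
  | succ j ih =>
    rw [rep_succ, List.append_assoc]
    exact path_append ih hw

private theorem rep_val (S : Sys) {w : List S.E} (hb : ∀ e ∈ w, S.b e = 1) (x : List S.E) (j : ℕ) :
    val S (rep w j ++ x) = val S x + j * val S w := by
  induction j with
  | zero => simp [rep]
  | succ j ih =>
    rw [rep_succ, List.append_assoc, val_append, ih, bm_one S w hb]
    ring

/-- a family of accepted paths with a constant value is finite -/
private theorem no_const (S : Sys) (h1 : ∀ s : ℝ, 1 < s → Summable fun l : Acc S => ((val S (l : List S.E) + 1 : ℕ) : ℝ) ^ (-s))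
    {Y : Type} [Infinite Y] (f : Y → List S.E) (hf : Function.Injective f) (hacc : ∀ y, f y ∈ Acc S) (c : ℕ)
    (hc : ∀ y, val S (f y) = c) : False := by
  have h2 := (h1 2 (by norm_num)).comp_injective (i := fun y => (⟨f y, hacc y⟩ : Acc S))
    (fun a b hab => hf (congrArg Subtype.val hab))
  have h3 : (fun _ : Y => ((c + 1 : ℕ) : ℝ) ^ (-(2 : ℝ))) =
      (fun l : Acc S => ((val S (l : List S.E) + 1 : ℕ) : ℝ) ^ (-(2 : ℝ))) ∘ fun y => (⟨f y, hacc y⟩ : Acc S) := by
    funext y
    show _ = ((val S (f y) + 1 : ℕ) : ℝ) ^ (-(2 : ℝ))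
    rw [hc y]
  rw [← h3, summable_const_iff] at h2
  have h4 : 0 < ((c + 1 : ℕ) : ℝ) ^ (-(2 : ℝ)) := Real.rpow_pos_of_pos (by exact_mod_cast Nat.succ_pos c) _
  linarith

theorem tame_of (S : Sys)
    (h1 : ∀ s : ℝ, 1 < s → Summable fun l : Acc S => ((val S (l : List S.E) + 1 : ℕ) : ℝ) ^ (-s))
    (h2 : ∀ a κ : ℕ, 1 ≤ κ → ∃ j, ∀ l ∈ Acc S, ∀ l' ∈ Acc S, val S l = a + κ * j → val S l' = a + κ * j → l = l') :
    Tame S := by
  refine ⟨?_, ?_, ?_⟩
  · rintro q ⟨q', hq', y, hy⟩ _ s hs
    have hacc : ∀ x : X S q, y ++ (x : List S.E) ∈ Acc S := fun x => ⟨q', hq', path_append x.2 hy⟩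
    have h3 := (h1 s hs).comp_injective (i := fun x : X S q => (⟨y ++ (x : List S.E), hacc x⟩ : Acc S))
      (fun a b hab => Subtype.ext (List.append_cancel_left (congrArg Subtype.val hab)))
    have h4 := h3.mul_left (((bm S y + val S y + 1 : ℕ) : ℝ) ^ s)
    refine Summable.of_nonneg_of_le (fun x => Real.rpow_nonneg (Nat.cast_nonneg _) _) (fun x => ?_) h4
    show _ ≤ ((bm S y + val S y + 1 : ℕ) : ℝ) ^ s * ((val S (y ++ (x : List S.E)) + 1 : ℕ) : ℝ) ^ (-s)
    rw [val_append]
    have hA : (0 : ℝ) < ((bm S y + val S y + 1 : ℕ) : ℝ) := by exact_mod_cast Nat.succ_pos _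
    have hB : (0 : ℝ) < ((val S (x : List S.E) + 1 : ℕ) : ℝ) := by exact_mod_cast Nat.succ_pos _
    have hC : (0 : ℝ) < ((bm S y * val S (x : List S.E) + val S y + 1 : ℕ) : ℝ) := by exact_mod_cast Nat.succ_pos _
    have h5 : ((bm S y * val S (x : List S.E) + val S y + 1 : ℕ) : ℝ) ≤
        ((bm S y + val S y + 1 : ℕ) : ℝ) * ((val S (x : List S.E) + 1 : ℕ) : ℝ) := by
      rw [← Nat.cast_mul]
      refine Nat.cast_le.2 ?_
      have := Nat.zero_le (val S (x : List S.E))
      nlinarith [Nat.zero_le (bm S y), Nat.zero_le (val S y), Nat.zero_le (val S y * val S (x : List S.E))]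
    have h6 := Real.rpow_le_rpow_of_nonpos hC h5 (by linarith : -s ≤ 0)
    rw [Real.mul_rpow hA.le hB.le] at h6
    calc ((val S (x : List S.E) + 1 : ℕ) : ℝ) ^ (-s)
        = ((bm S y + val S y + 1 : ℕ) : ℝ) ^ s * (((bm S y + val S y + 1 : ℕ) : ℝ) ^ (-s) *
            ((val S (x : List S.E) + 1 : ℕ) : ℝ) ^ (-s)) := by
          rw [← mul_assoc, ← Real.rpow_add hA, add_neg_cancel, Real.rpow_zero, one_mul]
      _ ≤ _ := mul_le_mul_of_nonneg_left h6 (Real.rpow_nonneg hA.le _)
  · rintro e ⟨q', hq', y, hy⟩ hi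
    by_contra hb
    have hb0 : S.b e = 0 := by omega
    have := hi.to_subtype
    refine no_const S h1 (Y := X S (S.src e)) (fun x => y ++ (e :: (x : List S.E))) ?_ ?_
      (bm S y * S.d e + val S y) ?_
    · intro a b hab
      exact Subtype.ext (List.cons_injective (List.append_cancel_left hab))
    · intro x
      exact ⟨q', hq', path_append (Path.cons e x.2) hy⟩
    · intro x
      show val S (y ++ (e :: (x : List S.E))) = _
      rw [val_append]
      show bm S y * (S.b e * val S (x : List S.E) + S.d e) + val S y = _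
      rw [hb0, zero_mul, zero_add]
  · rintro q ⟨q', hq', y, hy⟩ hi ⟨w, hw, hp, hb⟩
    have hlen : 0 < w.length := List.length_pos_iff.2 hw
    have hD : 1 ≤ val S w := by
      by_contra h0
      have h0' : val S w = 0 := by omega
      obtain ⟨x, hx⟩ := hi.nonempty
      refine no_const S h1 (Y := ℕ) (fun j => y ++ (rep w j ++ x)) ?_ ?_ (bm S y * val S x + val S y) ?_
      · intro a b hab
        have h3 := List.append_cancel_right (List.append_cancel_left hab)
        have h4 := congrArg List.length h3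
        rw [rep_len, rep_len] at h4
        exact Nat.eq_of_mul_eq_mul_right hlen h4
      · intro j
        exact ⟨q', hq', path_append (rep_path S hp hx j) hy⟩
      · intro j
        show val S (y ++ (rep w j ++ x)) = _
        rw [val_append, rep_val S hb, h0', mul_zero, add_zero]
    have hB : 1 ≤ bm S y := by
      by_contra h0
      have h0' : bm S y = 0 := by omega
      have := hi.to_subtype
      refine no_const S h1 (Y := X S q) (fun x => y ++ (x : List S.E)) ?_ ?_ (val S y) ?_
      · intro a b hab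
        exact Subtype.ext (List.append_cancel_left hab)
      · intro x
        exact ⟨q', hq', path_append x.2 hy⟩
      · intro x
        show val S (y ++ (x : List S.E)) = _
        rw [val_append, h0', zero_mul, zero_add]
    have hinj : Set.InjOn (val S) (X S q) := by
      intro x hx x' hx' hv
      obtain ⟨j, hj⟩ := h2 (bm S y * val S x + val S y) (bm S y * val S w) (Nat.mul_pos hB hD)
      have h3 := hj (y ++ (rep w j ++ x)) ⟨q', hq', path_append (rep_path S hp hx j) hy⟩
        (y ++ (rep w j ++ x')) ⟨q', hq', path_append (rep_path S hp hx' j) hy⟩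
        (by rw [val_append, rep_val S hb]; ring) (by rw [val_append, rep_val S hb, ← hv]; ring)
      exact List.append_cancel_left (List.append_cancel_left h3)
    obtain ⟨H, hH, hH'⟩ := dirN_shift (val S '' X S q) (val S w) hD (by
      rintro n ⟨l, hl, rfl⟩
      refine ⟨w ++ l, path_append hl hp, ?_⟩
      rw [val_append, bm_one S w hb, one_mul])
    refine ⟨H, hH, fun s hs => ?_⟩
    rw [← hH' s hs]
    have h3 : Dir S q s = DirN (val S '' X S q) s := by
      unfold Dir DirN
      exact (tsum_image (fun n : ℕ => ((n + 1 : ℕ) : ℂ) ^ (-(s : ℂ))) hinj).symm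
    rw [h3]

end Pool.Agent.Lib.UCV
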