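import Pool.Agent.Lib.UCV.Dif
import Pool.Agent.Lib.UCV.Tame

/-!
# UCV: the equations of the series, tame systems
-/

set_option autoImplicit false

open Filter Topology Finset

namespace Pool.Agent.Lib.UCV

open Pool.Agent.Lib.UCX

private theorem path_nil_iff {S : Sys} {a q : S.Q} : Path S a [] q ↔ q = a := by
  constructor
  · intro h
    cases h
    rfl
  · intro h
    rw [h]
    exact Path.nil a

private theorem path_cons_iff {S : Sys} {a q : S.Q} {e : S.E} {l : List S.E} :
    Path S a (e :: l) q ↔ S.tgt e = q ∧ Path S a l (S.src e) := by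
  constructor
  · intro h
    cases h with
    | cons e h => exact ⟨rfl, h⟩
  · rintro ⟨h1, h2⟩
    rw [← h1]
    exact Path.cons e h2

open Classical in
private theorem ind_eq (S : Sys) [Fintype S.E] (q : S.Q) (f : List S.E → ℂ) (l : List S.E) :
    (X S q).indicator f l = (if q = S.q0 ∧ l = [] then f [] else 0) +
      ∑ e ∈ univ.filter (fun e => S.tgt e = q), ((fun w => e :: w) '' X S (S.src e)).indicator f l := by
  cases l with
  | nil =>
    have h1 : ∑ e ∈ univ.filter (fun e => S.tgt e = q),
        ((fun w => e :: w) '' X S (S.src e)).indicator f [] = 0 := by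
      refine Finset.sum_eq_zero ?_
      intro e _
      refine Set.indicator_of_notMem ?_ f
      rintro ⟨w, _, hw⟩
      exact List.cons_ne_nil _ _ hw
    rw [h1, add_zero]
    by_cases hq : q = S.q0
    · rw [if_pos ⟨hq, rfl⟩]
      have hm : ([] : List S.E) ∈ X S q := path_nil_iff.mpr hq
      exact Set.indicator_of_mem hm f
    · rw [if_neg (fun h => hq h.1)]
      have hm : ([] : List S.E) ∉ X S q := fun h => hq (path_nil_iff.mp h)
      exact Set.indicator_of_notMem hm f
  | cons e' w =>
    rw [if_neg (fun h => List.cons_ne_nil _ _ h.2), zero_add]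
    by_cases hq : S.tgt e' = q
    · rw [Finset.sum_eq_single e']
      · by_cases hw : w ∈ X S (S.src e')
        · have hm : e' :: w ∈ X S q := path_cons_iff.mpr ⟨hq, hw⟩
          have hm' : e' :: w ∈ (fun w => e' :: w) '' X S (S.src e') := ⟨w, hw, rfl⟩
          rw [Set.indicator_of_mem hm, Set.indicator_of_mem hm']
        · have hm : e' :: w ∉ X S q := fun h => hw (path_cons_iff.mp h).2
          have hm' : e' :: w ∉ (fun w => e' :: w) '' X S (S.src e') := by
            rintro ⟨w', hw1, hw2⟩
            apply hw
            rw [← (List.cons.inj hw2).2]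
            exact hw1
          rw [Set.indicator_of_notMem hm, Set.indicator_of_notMem hm']
      · intro e _ hne
        refine Set.indicator_of_notMem ?_ f
        rintro ⟨w', _, hw'⟩
        exact hne (List.cons.inj hw').1
      · intro h
        exfalso
        apply h
        rw [mem_filter]
        exact ⟨mem_univ e', hq⟩
    · have hm : e' :: w ∉ X S q := fun h => hq (path_cons_iff.mp h).1
      rw [Set.indicator_of_notMem hm]
      symm
      refine Finset.sum_eq_zero ?_
      intro e he
      refine Set.indicator_of_notMem ?_ f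
      rintro ⟨w', _, hw'⟩
      apply hq
      rw [← (List.cons.inj hw').1]
      exact (mem_filter.mp he).2

open Classical in
private theorem hasSum_X (S : Sys) [Fintype S.E] (q : S.Q) (f : List S.E → ℂ)
    (hs : Summable (fun l : X S q => f (l : List S.E))) :
    ∑' l : X S q, f (l : List S.E) = (if q = S.q0 then f [] else 0) +
      ∑ e ∈ univ.filter (fun e => S.tgt e = q), ∑' l : X S (S.src e), f (e :: (l : List S.E)) := by
  have hs' : Summable ((X S q).indicator f) := by
    rw [← summable_subtype_iff_indicator]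
    exact hs
  have hA : HasSum (fun l : List S.E => if q = S.q0 ∧ l = [] then f [] else 0)
      (if q = S.q0 then f [] else 0) := by
    have h1 := hasSum_single (f := fun l : List S.E => if q = S.q0 ∧ l = [] then f [] else 0) []
      (fun l hl => if_neg (fun h => hl h.2))
    have h2 : (if q = S.q0 ∧ ([] : List S.E) = [] then f [] else 0) = (if q = S.q0 then f [] else 0) := by
      by_cases hq : q = S.q0
      · rw [if_pos ⟨hq, rfl⟩, if_pos hq]
      · rw [if_neg (fun h => hq h.1), if_neg hq]
    rw [← h2]
    exact h1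
  have hB : ∀ e ∈ univ.filter (fun e => S.tgt e = q),
      HasSum (((fun w => e :: w) '' X S (S.src e)).indicator f) (∑' l : X S (S.src e), f (e :: (l : List S.E))) := by
    intro e he
    have hte := (mem_filter.mp he).2
    have hsub : (fun w => e :: w) '' X S (S.src e) ⊆ X S q := by
      rintro _ ⟨w, hw, rfl⟩
      exact path_cons_iff.mpr ⟨hte, hw⟩
    have h1 : ((fun w => e :: w) '' X S (S.src e)).indicator f =
        ((fun w => e :: w) '' X S (S.src e)).indicator ((X S q).indicator f) := by
      rw [Set.indicator_indicator, Set.inter_eq_left.mpr hsub]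
    have h2 : Summable (((fun w => e :: w) '' X S (S.src e)).indicator f) := by
      rw [h1]
      exact hs'.indicator _
    have h3 : ∑' l, ((fun w => e :: w) '' X S (S.src e)).indicator f l =
        ∑' l : X S (S.src e), f (e :: (l : List S.E)) := by
      rw [← _root_.tsum_subtype, tsum_image f (fun a _ b _ hab => (List.cons.inj hab).2)]
    rw [← h3]
    exact h2.hasSum
  have hC := hA.add (hasSum_sum hB)
  rw [_root_.tsum_subtype (X S q) f, ← hC.tsum_eq]
  exact tsum_congr (fun l => ind_eq S q f l)

open Classical in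
private theorem edge_part (S : Sys) (hT : Tame S) (q : S.Q) (hq : Live S q) (e : S.E) :
    ∃ h : ℂ → ℂ, AnalyticAt ℂ h 1 ∧ (S.tgt e = q → ∀ s : ℝ, 1 < s →
      ∑' l : X S (S.src e), ((S.b e * val S (l : List S.E) + S.d e + 1 : ℕ) : ℂ) ^ (-(s : ℂ)) =
        (if (X S (S.src e)).Infinite then (S.b e : ℂ) ^ (-(s : ℂ)) * Dir S (S.src e) s else 0) + h s) := by
  by_cases ht : S.tgt e = q
  · by_cases hi : (X S (S.src e)).Infinite
    · have hqe : Live S (S.tgt e) := by rw [ht]; exact hq
      obtain ⟨hb, hL, _⟩ := edge_facts' S hT e hqe hi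
      obtain ⟨h, hh1, hh2⟩ := diff_analytic' (fun l : X S (S.src e) => val S (l : List S.E)) (hT.summ _ hL hi)
        (S.b e) (S.d e) hb
      refine ⟨h, hh1, fun _ s hs => ?_⟩
      rw [if_pos hi]
      exact hh2 s hs
    · have hfin : (X S (S.src e)).Finite := Set.not_infinite.mp hi
      have : Fintype (X S (S.src e)) := hfin.fintype
      refine ⟨fun z => ∑ l : X S (S.src e), ((S.b e * val S (l : List S.E) + S.d e + 1 : ℕ) : ℂ) ^ (-z), ?_, ?_⟩
      · refine Differentiable.analyticAt ?_ 1
        refine Differentiable.fun_sum (fun l _ => ?_)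
        exact differentiable_id.neg.const_cpow (Or.inl (by
          rw [Nat.cast_ne_zero]
          exact Nat.succ_ne_zero _))
      · intro _ s _
        rw [if_neg hi, zero_add, tsum_fintype]
  · exact ⟨fun _ => 0, analyticAt_const, fun h => absurd h ht⟩

open Classical in
theorem decomp' (S : Sys) [Fintype S.E] (hT : Tame S) {q : S.Q} (hq : Live S q)
    (hi : (X S q).Infinite) :
    ∃ H : ℂ → ℂ, AnalyticAt ℂ H 1 ∧ ∀ s : ℝ, 1 < s → Dir S q s =
      ∑ e ∈ univ.filter (fun e => S.tgt e = q ∧ (X S (S.src e)).Infinite),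
        (S.b e : ℂ) ^ (-(s : ℂ)) * Dir S (S.src e) s + H s := by
  choose h hh1 hh2 using edge_part S hT q hq
  refine ⟨fun z => (if q = S.q0 then 1 else 0) + ∑ e ∈ univ.filter (fun e => S.tgt e = q), h e z, ?_, ?_⟩
  · refine AnalyticAt.add analyticAt_const ?_
    exact Finset.analyticAt_fun_sum _ (fun e _ => hh1 e)
  · intro s hs
    have hsum := summable_cpow' (fun l : X S q => val S (l : List S.E)) (hT.summ _ hq hi) hs
    have h1 := hasSum_X S q (fun l => ((val S l + 1 : ℕ) : ℂ) ^ (-(s : ℂ))) hsum
    have h0 : ((val S ([] : List S.E) + 1 : ℕ) : ℂ) ^ (-(s : ℂ)) = 1 := by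
      show ((0 + 1 : ℕ) : ℂ) ^ (-(s : ℂ)) = 1
      rw [zero_add, Nat.cast_one, Complex.one_cpow]
    have h2 : Dir S q s = (if q = S.q0 then 1 else 0) +
        ∑ e ∈ univ.filter (fun e => S.tgt e = q),
          ((if (X S (S.src e)).Infinite then (S.b e : ℂ) ^ (-(s : ℂ)) * Dir S (S.src e) s else 0) + h e s) := by
      unfold Dir
      rw [h1, h0]
      refine congrArg₂ (· + ·) rfl ?_
      refine Finset.sum_congr rfl ?_
      intro e he
      exact hh2 e (mem_filter.mp he).2 s hs
    rw [h2, Finset.sum_add_distrib, ← Finset.sum_filter, Finset.filter_filter]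
    ring

end Pool.Agent.Lib.UCV
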