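import Pool.Agent.Lib.UCY.Asm
import Pool.Agent.Lib.UCW.Cmp
import Pool.Agent.Lib.UCV.TameOf

/-!
# UCV: accepted paths and derivations
-/

set_option autoImplicit false

namespace Pool.Agent.Lib.UCY

open Pool.Agent.Lib.UCX
open Pool.Agent.Lib.UCV (Acc)

private theorem val_eq (G : Grammar) (P : Set G.V) (w : List (sysOf G P).E) :
    val (sysOf G P) w = eval (w.map Subtype.val) := by
  induction w with
  | nil => rfl
  | cons e w ih =>
    show (sysOf G P).b e * val (sysOf G P) w + (sysOf G P).d e = eb e.1 * eval (w.map Subtype.val) + ed e.1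
    rw [ih]
    rfl

private theorem to_epath (G : Grammar) (P : Set G.V) {q' : (sysOf G P).Q} {w : List (sysOf G P).E}
    (h : Path (sysOf G P) (sysOf G P).q0 w q') : EPath G P (w.map Subtype.val) q' := by
  induction h with
  | nil => exact EPath.nil
  | cons e _ ih => exact EPath.cons e.1 e.2 ih

private theorem of_epath (G : Grammar) (P : Set G.V) {q : St G} {l : List (Edge G)}
    (h : EPath G P l q) : ∃ w : List (sysOf G P).E, w.map Subtype.val = l ∧
      Path (sysOf G P) (sysOf G P).q0 w q := by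
  induction h with
  | nil => exact ⟨[], rfl, Path.nil _⟩
  | cons e he _ ih =>
    obtain ⟨w, hw, hp⟩ := ih
    refine ⟨(⟨e, he⟩ : (sysOf G P).E) :: w, ?_, ?_⟩
    · show e :: w.map Subtype.val = _
      rw [hw]
    · exact Path.cons (S := sysOf G P) ⟨e, he⟩ hp

theorem acc_code (G : Grammar) (P : Set G.V) : ∃ γ : List (sysOf G P).E → List (Prd G),
    (∀ l ∈ Acc (sysOf G P), Run G (γ l) [some (G.start, [])] (val (sysOf G P) l)) ∧
    ∀ l ∈ Acc (sysOf G P), ∀ l' ∈ Acc (sysOf G P), γ l = γ l' → l = l' := by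
  refine ⟨fun l => pp (l.map Subtype.val) ++ rr (l.map Subtype.val), ?_, ?_⟩
  · rintro l ⟨q, ⟨B, hB, b, rfl⟩, hl⟩
    have h1 := to_epath G P hl
    rw [val_eq]
    exact sound1 h1 _ _ (sound2 h1 _ _ _ rfl)
  · rintro l ⟨q, ⟨B, hB, b, rfl⟩, hl⟩ l' ⟨q', ⟨B', hB', b', rfl⟩, hl'⟩ h
    have h1 := to_epath G P hl
    have h2 := to_epath G P hl'
    obtain ⟨h5, h6⟩ := split_enc h1 h2 h
    exact (List.map_injective_iff.2 Subtype.val_injective) (inj_enc h1 h2 h5 h6)

theorem vals1 (G : Grammar) (P : Set G.V) (hk : OneKind G P) {n : ℕ}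
    (hu : Un G [some (G.start, [])] n) (hn : n ∈ Lang G) :
    ∃ l ∈ Acc (sysOf G P), val (sysOf G P) l = n := by
  obtain ⟨m, hm⟩ := hn
  obtain ⟨B, hB, l', b, hl', rfl⟩ := compN hk hu (l := []) EPath.nil hm
  obtain ⟨w, rfl, hw⟩ := of_epath G P hl'
  exact ⟨w, ⟨_, ⟨B, hB, b, rfl⟩, hw⟩, val_eq G P w⟩

end Pool.Agent.Lib.UCY
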