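import Pool.Agent.Lib.UCX.Mer
import Pool.Agent.Lib.UCX.Prm
import Pool.Agent.Lib.UCV.TameOf
import Pool.Agent.Lib.UCV.Smn

/-!
# UCV: the series of all accepted paths has no logarithmic singularity
-/

set_option autoImplicit false

open Filter Topology Finset

namespace Pool.Agent.Lib.UCV

open Pool.Agent.Lib.UCX

open Classical in
private theorem acc_sum (S : Sys) [Fintype S.Q] (s : ℝ)
    (hs : Summable fun l : Acc S => ((val S (l : List S.E) + 1 : ℕ) : ℝ) ^ (-s)) :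
    ∑' l : Acc S, ((val S (l : List S.E) + 1 : ℕ) : ℂ) ^ (-(s : ℂ)) =
      ∑ q ∈ univ.filter (fun q => q ∈ S.fin), Dir S q s := by
  let f : (Σ q : {q // q ∈ S.fin}, X S (q : S.Q)) → Acc S :=
    fun p => ⟨(p.2 : List S.E), p.1.1, p.1.2, p.2.2⟩
  have hf : Function.Bijective f := by
    constructor
    · rintro ⟨⟨q, hq⟩, ⟨l, hl⟩⟩ ⟨⟨q', hq'⟩, ⟨l', hl'⟩⟩ h
      have h1 : l = l' := congrArg Subtype.val h
      subst h1
      have h2 : q = q' := path_end hl hl'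
      subst h2
      rfl
    · rintro ⟨l, q, hq, hl⟩
      exact ⟨⟨⟨q, hq⟩, ⟨l, hl⟩⟩, rfl⟩
  have hc : Summable fun l : Acc S => ((val S (l : List S.E) + 1 : ℕ) : ℂ) ^ (-(s : ℂ)) := by
    refine Summable.of_norm (hs.congr fun x => ?_)
    rw [Complex.norm_natCast_cpow_of_pos (Nat.succ_pos _)]
    simp
  have h1 : ∑' l : Acc S, ((val S (l : List S.E) + 1 : ℕ) : ℂ) ^ (-(s : ℂ)) =
      ∑' p : (Σ q : {q // q ∈ S.fin}, X S (q : S.Q)), ((val S (p.2 : List S.E) + 1 : ℕ) : ℂ) ^ (-(s : ℂ)) :=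
    ((Equiv.ofBijective f hf).tsum_eq
      (fun l : Acc S => ((val S (l : List S.E) + 1 : ℕ) : ℂ) ^ (-(s : ℂ)))).symm
  have hc' : Summable fun p : (Σ q : {q // q ∈ S.fin}, X S (q : S.Q)) =>
      ((val S (p.2 : List S.E) + 1 : ℕ) : ℂ) ^ (-(s : ℂ)) :=
    ((Equiv.ofBijective f hf).summable_iff
      (f := fun l : Acc S => ((val S (l : List S.E) + 1 : ℕ) : ℂ) ^ (-(s : ℂ)))).2 hc
  rw [h1, hc'.tsum_sigma, tsum_fintype,
    Finset.sum_subtype (univ.filter (fun q => q ∈ S.fin)) (p := fun q => q ∈ S.fin)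
      (fun x => by simp)]
  rfl

open Classical in
theorem sysQ (S : Sys)
    (h1 : ∀ s : ℝ, 1 < s → Summable fun l : Acc S => ((val S (l : List S.E) + 1 : ℕ) : ℝ) ^ (-s))
    (h2 : ∀ a κ : ℕ, 1 ≤ κ → ∃ j, ∀ l ∈ Acc S, ∀ l' ∈ Acc S, val S l = a + κ * j → val S l' = a + κ * j → l = l')
    (hv : ∃ Z : ℂ → ℂ, AnalyticAt ℂ Z 1 ∧ ∀ s : ℝ, 1 < s →
      ((s : ℂ) - 1) * ∑' l : Acc S, ((val S (l : List S.E) + 1 : ℕ) : ℂ) ^ (-(s : ℂ)) =
        Z s - ((s : ℂ) - 1) * (PS s : ℂ)) : False := by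
  have := S.finQ
  have := Fintype.ofFinite S.Q
  obtain ⟨D, hDan', hDne', hall⟩ := tame_dir S (tame_of S h1 h2)
  have hfin : ∀ q : S.Q, ∃ K : ℂ → ℂ, AnalyticAt ℂ K 1 ∧ ∀ s : ℝ, 1 < s → q ∈ S.fin →
      D s * (((s : ℂ) - 1) * Dir S q s) = K s := by
    intro q
    by_cases hq : q ∈ S.fin
    · obtain ⟨K, hK, hK'⟩ := hall q ⟨q, hq, [], Path.nil _⟩
      exact ⟨K, hK, fun s hs _ => hK' s hs⟩
    · exact ⟨fun _ => 0, analyticAt_const, fun s _ h => absurd h hq⟩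
  choose K hK hK' using hfin
  obtain ⟨Z, hZ, hZ'⟩ := hv
  refine contra PS prime_facts.1 prime_facts.2 (fun s => D s * (s - 1))
    (fun s => D s * Z s - ∑ q ∈ univ.filter (fun q => q ∈ S.fin), K q s) ?_ ?_ ?_ ?_
  · exact hDan'.mul (analyticAt_id.sub analyticAt_const)
  · exact (hDan'.mul hZ).sub (Finset.analyticAt_fun_sum _ fun q _ => hK q)
  · filter_upwards [hDne', self_mem_nhdsWithin] with s h1 h2
    refine mul_ne_zero h1 ?_
    have h3 : (1 : ℝ) < s := h2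
    rw [sub_ne_zero]
    exact_mod_cast h3.ne'
  · filter_upwards [self_mem_nhdsWithin] with s h2
    have h3 : (1 : ℝ) < s := h2
    have h4 : ∑ q ∈ univ.filter (fun q => q ∈ S.fin), K q s =
        D s * (((s : ℂ) - 1) * ∑' l : Acc S, ((val S (l : List S.E) + 1 : ℕ) : ℂ) ^ (-(s : ℂ))) := by
      rw [acc_sum S s (h1 s h3), Finset.mul_sum, Finset.mul_sum]
      refine Finset.sum_congr rfl fun q hq => ?_
      exact (hK' q s h3 (Finset.mem_filter.1 hq).2).symm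
    show (D s * ((s : ℂ) - 1)) * _ = D s * Z s - ∑ q ∈ univ.filter (fun q => q ∈ S.fin), K q s
    rw [h4, hZ' s h3]
    ring

end Pool.Agent.Lib.UCV
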