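import Pool.Agent.Lib.UCV.CapP
import Pool.Agent.Lib.UCV.Gr
import Pool.Agent.Lib.UCV.An
import Pool.Agent.Lib.UCV.SysQ
import Pool.Agent.Lib.UCW.Fin

/-!
# UCV: the derivations of the ambiguous words are not sparse
-/

set_option autoImplicit false

open Filter Topology Finset

namespace Pool.Agent.Lib.UCV

open Pool.Agent.Lib.UCX
open Pool.Agent.Lib.UCW
open Pool.Agent.Lib.UCY (acc_code vals1)

private theorem lder_red {G : Grammar} {d : List (List (Item G))} {n : ℕ} (h : LDer (red G) d n) :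
    LDer G d n := ⟨h.1, h.2.1, h.2.2.imp fun _ _ h' => red_step h'⟩

theorem mainQ (G : Grammar) (P : Set G.V) (hk : Pool.Agent.Lib.UCY.OneKind G P)
    (hL : Sparse (symmDiff (Gen G) {n | Composite n})) (N : ℕ) (σ : ℝ) (hσ : σ < 1)
    (hsum : Summable fun x : {x : ℕ × List (List (Item G)) // N < x.1 ∧ x.1 ∈ Amb G ∧ LDer G x.2 x.1} =>
      ((x.1.1 : ℝ) + 1) ^ (-σ)) : False := by
  have hlang : ∀ n, (n ∈ Lang (red G) ↔ n ∈ Gen G) := by
    intro n
    constructor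
    · rintro ⟨l, hl⟩
      obtain ⟨d, hd⟩ := tr_exists hl 0
      exact ⟨d, lder_red (lder_of_tr hd)⟩
    · intro h
      rw [gen_eq] at h
      obtain ⟨l, hl⟩ := h
      exact run_red hl
  have hun : ∀ n, n ∉ Amb G → Pool.Agent.Lib.UCY.Un (red G) [some ((red G).start, [])] n := by
    intro n hn l l' h h'
    by_contra hne
    obtain ⟨d, hd⟩ := tr_exists h 0
    obtain ⟨d', hd'⟩ := tr_exists h' 0
    refine hn ⟨d, d', ?_, lder_red (lder_of_tr hd), lder_red (lder_of_tr hd')⟩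
    rintro rfl
    exact hne (tr_inj (red_sep G) hd hd')
  have hk' := red_oneKind hk
  obtain ⟨γ, hγ, hγi⟩ := acc_code (red G) P
  obtain ⟨S, π, hπ, hπi, hπs⟩ : ∃ (S : Sys) (π : List S.E → List (Pool.Agent.Lib.UCY.sysOf (red G) P).E),
      (∀ l ∈ Acc S, π l ∈ Acc (Pool.Agent.Lib.UCY.sysOf (red G) P) ∧
        val S l = val (Pool.Agent.Lib.UCY.sysOf (red G) P) (π l) ∧
        N < val (Pool.Agent.Lib.UCY.sysOf (red G) P) (π l)) ∧
      (∀ l ∈ Acc S, ∀ l' ∈ Acc S, π l = π l' → l = l') ∧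
      ∀ l ∈ Acc (Pool.Agent.Lib.UCY.sysOf (red G) P), N < val (Pool.Agent.Lib.UCY.sysOf (red G) P) l →
        ∃ l' ∈ Acc S, π l' = l :=
    ⟨cap (Pool.Agent.Lib.UCY.sysOf (red G) P) N, cap_code _ N⟩
  -- the derivation of an accepted path
  have hex : ∀ l : Acc S, ∃ d, Tr (red G) 0 (γ (π (l : List S.E))) [some ((red G).start, [])]
      (val (Pool.Agent.Lib.UCY.sysOf (red G) P) (π (l : List S.E))) d := fun l =>
    tr_exists (hγ _ (hπ _ l.2).1) 0
  choose Ψ hΨ using hex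
  have hΨi : Function.Injective Ψ := by
    intro l l' h
    have h1 := hΨ l
    have h2 := hΨ l'
    rw [h] at h1
    have h3 := tr_inj (red_sep G) h1 h2
    have h4 := hγi _ (hπ _ l.2).1 _ (hπ _ l'.2).1 h3
    exact Subtype.ext (hπi _ l.2 _ l'.2 h4)
  obtain ⟨v, hv⟩ : ∃ v : Acc S → ℕ, v = fun l : Acc S => val S (l : List S.E) := ⟨_, rfl⟩
  have hvl : ∀ l, v l = val S (l : List S.E) := fun l => by rw [hv]
  have hvN : ∀ l, N < v l := fun l => by
    rw [hvl, (hπ _ l.2).2.1]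
    exact (hπ _ l.2).2.2
  have hder : ∀ l, LDer G (Ψ l) (v l) := fun l => by
    rw [hvl, (hπ _ l.2).2.1]
    exact lder_red (lder_of_tr (hΨ l))
  obtain ⟨T2, hT2⟩ : ∃ T2 : Set (Acc S), T2 = {l | v l ∈ Amb G} := ⟨_, rfl⟩
  have hT2m : ∀ l, l ∈ T2 ↔ v l ∈ Amb G := fun l => by rw [hT2]; exact Iff.rfl
  -- accepted paths whose value is ambiguous
  have hs2 : Summable fun l : T2 => ((v (l : Acc S) : ℝ) + 1) ^ (-σ) :=
    (hsum.comp_injective (i := fun l : T2 =>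
      (⟨(v (l : Acc S), Ψ (l : Acc S)), hvN _, (hT2m _).1 l.2, hder _⟩ :
        {x : ℕ × List (List (Item G)) // N < x.1 ∧ x.1 ∈ Amb G ∧ LDer G x.2 x.1}))
      (fun a b hab => Subtype.ext (hΨi (congrArg (fun z => z.1.2) hab))) :)
  -- on the others the value is injective
  have hinj : Set.InjOn v T2ᶜ := by
    intro l hl l' hl' h
    by_contra hne
    refine hl ((hT2m l).2 ⟨Ψ l, Ψ l', fun h' => hne (hΨi h'), hder l, ?_⟩)
    rw [h]
    exact hder l'
  have h1c : ∀ s : ℝ, 1 < s → Summable fun l : ↥(T2ᶜ) => ((v (l : Acc S) + 1 : ℕ) : ℝ) ^ (-s) := by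
    intro s hs
    have h2 : Summable fun n : ℕ => ((n : ℕ) : ℝ) ^ (-s) := Real.summable_nat_rpow.2 (by linarith)
    have h3 := (summable_nat_add_iff 1).2 h2
    exact (h3.comp_injective (i := fun l : ↥(T2ᶜ) => v (l : Acc S))
      (fun a b hab => Subtype.ext (hinj a.2 b.2 hab)) :)
  have h1t : ∀ s : ℝ, 1 < s → Summable fun l : T2 => ((v (l : Acc S) + 1 : ℕ) : ℝ) ^ (-s) := by
    intro s hs
    refine Summable.of_nonneg_of_le (fun l => Real.rpow_nonneg (Nat.cast_nonneg _) _) (fun l => ?_) hs2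
    have e : ((v (l : Acc S) + 1 : ℕ) : ℝ) = (v (l : Acc S) : ℝ) + 1 := by push_cast; ring
    rw [e]
    exact Real.rpow_le_rpow_of_exponent_le
      (by linarith [(Nat.cast_nonneg (v (l : Acc S)) : (0 : ℝ) ≤ (v (l : Acc S) : ℝ))]) (by linarith)
  have h1v : ∀ s : ℝ, 1 < s → Summable fun l : Acc S => ((v l + 1 : ℕ) : ℝ) ^ (-s) := fun s hs =>
    summable_subtype_and_compl.1 ⟨h1t s hs, h1c s hs⟩
  have h1 : ∀ s : ℝ, 1 < s → Summable fun l : Acc S => ((val S (l : List S.E) + 1 : ℕ) : ℝ) ^ (-s) := by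
    intro s hs
    have h2 := h1v s hs
    simp only [hvl] at h2
    exact h2
  refine sysQ S h1 ?_ ?_
  · intro a κ hκ
    by_contra hcon
    push Not at hcon
    choose L hL1 L' hL2 h3 h4 h5 using hcon
    have hmem : ∀ j, (⟨L j, hL1 j⟩ : Acc S) ∈ T2 := by
      intro j
      refine (hT2m _).2 ⟨Ψ ⟨L j, hL1 j⟩, Ψ ⟨L' j, hL2 j⟩, ?_, hder _, ?_⟩
      · intro h
        exact h5 j (congrArg Subtype.val (hΨi h))
      · have h6 : v ⟨L j, hL1 j⟩ = v ⟨L' j, hL2 j⟩ := by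
          rw [hvl, hvl]
          exact (h3 j).trans (h4 j).symm
        rw [h6]
        exact hder _
    have h6 := hs2.comp_injective (i := fun j : ℕ => (⟨⟨L j, hL1 j⟩, hmem j⟩ : T2)) (by
      intro i j hij
      have h7 : L i = L j := congrArg (fun z : T2 => ((z : Acc S) : List S.E)) hij
      have h8 : a + κ * i = a + κ * j := by rw [← h3 i, ← h3 j, h7]
      exact Nat.eq_of_mul_eq_mul_left hκ (by omega))
    refine ap_not (a := a) (κ := κ) hσ (h6.congr fun j => ?_)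
    show ((v ⟨L j, hL1 j⟩ : ℝ) + 1) ^ (-σ) = _
    rw [hvl]
    show ((val S (L j) : ℝ) + 1) ^ (-σ) = _
    rw [h3 j]
  · -- the series
    have hD : Sparse (symmDiff (Gen G) {n | Composite n} ∪ {n | n ∈ Amb G ∧ N < n}) := by
      refine sparse_union hL ⟨σ, hσ, ?_⟩
      have hch : ∀ n : ↥{n | n ∈ Amb G ∧ N < n}, ∃ d, LDer G d (n : ℕ) := by
        rintro ⟨n, ⟨d, d', -, hd, -⟩, -⟩
        exact ⟨d, hd⟩
      choose d hd using hch
      exact (hsum.comp_injective (i := fun n : ↥{n | n ∈ Amb G ∧ N < n} =>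
        (⟨((n : ℕ), d n), n.2.2, n.2.1, hd n⟩ :
          {x : ℕ × List (List (Item G)) // N < x.1 ∧ x.1 ∈ Amb G ∧ LDer G x.2 x.1}))
        (fun a b hab => Subtype.ext (congrArg (fun z => z.1.1) hab)) :)
    obtain ⟨Z, hZ, hZ'⟩ := comp_sumD N (v '' T2ᶜ) _ hD (by
      rintro n ⟨l, hl, rfl⟩ hn
      refine ⟨?_, hvN l⟩
      by_contra hc
      refine hn (Or.inl (Or.inl ⟨⟨_, hder l⟩, hc⟩))) (by
      intro n hc hN hn
      have hA : n ∉ Amb G := fun h => hn (Or.inr ⟨h, hN⟩)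
      have hG : n ∈ Gen G := by
        by_contra h
        exact hn (Or.inl (Or.inr ⟨hc, h⟩))
      obtain ⟨l, hl, hln⟩ := vals1 (red G) P hk' (hun n hA) ((hlang n).2 hG)
      obtain ⟨l', hl', hl''⟩ := hπs l hl (by rw [hln]; exact hN)
      refine ⟨⟨l', hl'⟩, ?_, ?_⟩
      · intro h
        apply hA
        have h2 := (hT2m _).1 h
        rw [hvl, (hπ _ hl').2.1, hl'', hln] at h2
        exact h2
      · rw [hvl, (hπ _ hl').2.1, hl'', hln])
    refine ⟨fun s => Z s + (s - 1) * ∑' l : T2, ((v (l : Acc S) + 1 : ℕ) : ℂ) ^ (-s), ?_, ?_⟩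
    · exact hZ.add ((analyticAt_id.sub analyticAt_const).mul (an_gen (fun l : T2 => v (l : Acc S)) hσ hs2))
    · intro s hs
      have hc : ∀ (Y : Type) (u : Y → ℕ), (Summable fun l : Y => ((u l + 1 : ℕ) : ℝ) ^ (-s)) →
          Summable fun l : Y => ((u l + 1 : ℕ) : ℂ) ^ (-(s : ℂ)) := by
        intro Y u h
        refine Summable.of_norm (h.congr fun x => ?_)
        rw [Complex.norm_natCast_cpow_of_pos (Nat.succ_pos _)]
        simp
      have e1 : ∑' l : Acc S, ((v l + 1 : ℕ) : ℂ) ^ (-(s : ℂ)) =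
          ∑' l : T2, ((v (l : Acc S) + 1 : ℕ) : ℂ) ^ (-(s : ℂ)) +
            ∑' l : ↥(T2ᶜ), ((v (l : Acc S) + 1 : ℕ) : ℂ) ^ (-(s : ℂ)) :=
        (Summable.tsum_add_tsum_compl (f := fun l : Acc S => ((v l + 1 : ℕ) : ℂ) ^ (-(s : ℂ)))
          (hc _ _ (h1t s hs)) (hc _ _ (h1c s hs))).symm
      have e2 : DirN (v '' T2ᶜ) s = ∑' l : ↥(T2ᶜ), ((v (l : Acc S) + 1 : ℕ) : ℂ) ^ (-(s : ℂ)) :=
        tsum_image (fun n : ℕ => ((n + 1 : ℕ) : ℂ) ^ (-(s : ℂ))) hinj
      have e3 := hZ' s hs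
      rw [e2] at e3
      simp only [← hvl]
      rw [e1]
      show _ = Z s + ((s : ℂ) - 1) * _ - _
      linear_combination e3

end Pool.Agent.Lib.UCV
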